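import Pool.Agent.H27.GH.Targets

/-!
# MP_70ba79_ag, board gh_modules: module LOC
-/

set_option autoImplicit false

namespace Pool.Agent.H65.GH

open MvPolynomial SC Pool.Agent.H27.LV Pool.Agent.H27.GH

section

variable {k K : Type} [Field k] [Field K] [Algebra k K] {n q : ℕ}

theorem ellY_eq (D : Derivation k K K) (a : Fin (n + 1) → k) (z : Fin n → K) :
    ellY a (fun s => D (z s)) = D (ell a (xx z)) := by
  unfold ell ellY xx
  rw [Fin.sum_univ_succ, map_add, map_sum]
  simp only [Fin.cons_zero, Fin.cons_succ, Derivation.leibniz, Derivation.map_algebraMap,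
    smul_zero, add_zero, smul_eq_mul, mul_one]
  simp

theorem ord_le_pole (v : DV k K) (z : Fin n → K) (r : Fin n) :
    -(poleOrder v z : ℤ) ≤ v.ord (z r) := by
  have h : (-(v.ord (z r))).toNat ≤ poleOrder v z :=
    Finset.le_sup (f := fun i => (-(v.ord (z i))).toNat) (Finset.mem_univ r)
  omega

theorem ge_prod_pow (v : DV k K) (I : Finset (Fin q)) (s : Fin q → K) (N : Fin q → ℕ)
    (hs : ∀ i ∈ I, ge v (N i) (s i)) (γ wt : Fin q → ℕ) (h : ∀ i ∈ I, wt i ≤ γ i) :
    ge v (∑ i ∈ I, (wt i : ℤ) * N i) (∏ i ∈ I, s i ^ γ i) := by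
  classical
  have hp : ∀ (x : K) (t : ℕ) (m : ℕ), ge v t x → ge v ((m : ℤ) * t) (x ^ m) := by
    intro x t m hx
    induction m with
    | zero => simpa using ge_one v
    | succ m ih =>
      rw [pow_succ]
      have := ih.mul hx
      push_cast
      rw [add_mul, one_mul]
      exact this
  induction I using Finset.induction_on with
  | empty => simpa using ge_one v
  | insert i I hi ih =>
    rw [Finset.sum_insert hi, Finset.prod_insert hi]
    refine ge.mul ?_ (ih (fun j hj => hs j (Finset.mem_insert_of_mem hj))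
      (fun j hj => h j (Finset.mem_insert_of_mem hj)))
    have h1 := hp (s i) (N i) (γ i) (hs i (Finset.mem_insert_self i I))
    refine h1.mono ?_
    have : (wt i : ℤ) ≤ γ i := by exact_mod_cast h i (Finset.mem_insert_self i I)
    exact mul_le_mul_of_nonneg_right this (by positivity)

/-- the common estimate -/
theorem loc_general (hPSI : T_PSI) (hEVB : T_EVB) (b1 b2 : ℕ)
    (a : Fin q → Fin (n + 1) → k) (v : DV k K) (D : Derivation k K K) (z : Fin n → K)
    (e : Fin q → Fin n → k) (R : MvPolynomial (Vr n) k) (wt : Fin q → ℕ) (I : Finset (Fin q))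
    (he : Dual a I e) (hR : Bih b1 b2 R) (hRI : ∀ i, R ∈ LI (a i) ^ wt i)
    (N : Fin q → ℕ) (p1 p2 : ℤ)
    (hA : ∀ s, ge v p1 (xx z s))
    (hB : ∀ i ∈ I, ge v (p1 + N i) (ell (a i) (xx z)))
    (hC : ∀ r, ge v p2 (D (z r)))
    (hD : ∀ i ∈ I, ge v (p2 + N i) (D (ell (a i) (xx z)))) :
    ge v (b1 * p1 + b2 * p2 + ∑ i ∈ I, (wt i : ℤ) * N i)
      (aeval (Sum.elim (xx z) fun s => D (z s)) R) := by
  classical
  set s : Fin q → K := fun i => v.unif ^ N i with hs
  have hs0 : ∀ i, s i ≠ 0 := fun i => pow_ne_zero _ v.unif_ne_zero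
  have hsord : ∀ i, v.ord (s i) = N i := fun i => v.ord_unif_pow (N i)
  have hsinv : ∀ i, ge v (-(N i : ℤ)) (s i)⁻¹ := by
    intro i
    right
    have h1 : v.ord (s i * (s i)⁻¹) = v.ord (s i) + v.ord (s i)⁻¹ :=
      v.ord_mul' (hs0 i) (inv_ne_zero (hs0 i))
    rw [mul_inv_cancel₀ (hs0 i), v.ord_one, hsord i] at h1
    omega
  obtain ⟨Γ, F, hF, e1⟩ := hPSI k K n q b1 b2 a I e he R wt hR (fun i _ => hRI i) (xx z)
    (fun s => D (z s)) s (fun i _ => hs0 i)
  rw [e1]
  refine ge_sum v _ _ _ fun γ hγ => ?_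
  obtain ⟨hFb, hw⟩ := hF γ hγ
  rw [add_comm (b1 * p1 + b2 * p2)]
  refine ge.mul (ge_prod_pow v I s N (fun i _ => Or.inr (hsord i).ge) _ wt hw) ?_
  refine hEVB k K v n b1 b2 (F γ) hFb _ _ p1 p2 ?_ ?_
  · intro r
    refine Fin.cases ?_ (fun r => ?_) r
    · rw [Fin.cons_zero]; exact hA 0
    · rw [Fin.cons_succ]
      refine (hA r.succ).add (ge_sum v _ _ _ fun i hi => ?_)
      have h1 : ge v p1 ((s i)⁻¹ * ell (a i) (xx z)) :=
        ((hsinv i).mul (hB i hi)).mono (by omega)
      have h2 : ge v p1 (ell (a i) (xx z)) := (hB i hi).mono (by omega)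
      have h3 := (h1.sub h2).mul (ge_const v (e i r))
      rw [add_zero] at h3
      rw [sub_mul, one_mul]
      exact h3
  · intro r
    refine (hC r).add (ge_sum v _ _ _ fun i hi => ?_)
    rw [ellY_eq]
    have h1 : ge v p2 ((s i)⁻¹ * D (ell (a i) (xx z))) :=
      ((hsinv i).mul (hD i hi)).mono (by omega)
    have h2 : ge v p2 (D (ell (a i) (xx z))) := (hD i hi).mono (by omega)
    have h3 := (h1.sub h2).mul (ge_const v (e i r))
    rw [add_zero] at h3
    rw [sub_mul, one_mul]
    exact h3

end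

theorem pf_LOC (hPSI : T_PSI) (hEVB : T_EVB) : T_LOC' := by
  intro k K _ _ _ n q b1 b2 a v D δ z e R wt I hD hne hI he hR hRI
  constructor
  · intro hp
    have hpos : ∀ i ∈ I, 1 ≤ v.ord (ell (a i) (xx z)) := by
      intro i hi
      have := (hI i).1 hi
      rw [hp] at this
      push_cast at this
      omega
    have hz : ∀ r, 0 ≤ v.ord (z r) := by
      intro r
      have := ord_le_pole v z r
      rw [hp] at this
      simpa using this
    have h := loc_general hPSI hEVB b1 b2 a v D z e R wt I he hR hRI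
      (fun i => (v.ord (ell (a i) (xx z)) - 1).toNat) 0 δ ?_ ?_ ?_ ?_
    · have e2 : ∑ i ∈ I, (wt i : ℤ) * ((v.ord (ell (a i) (xx z)) - 1).toNat : ℤ) =
          ∑ i ∈ I, (wt i : ℤ) * (v.ord (ell (a i) (xx z)) - 1) := by
        refine Finset.sum_congr rfl fun i hi => ?_
        have := hpos i hi
        rw [Int.toNat_of_nonneg (by omega)]
      rw [e2] at h
      simpa using h
    · intro s
      refine Fin.cases ?_ (fun r => ?_) s
      · exact ge_one v
      · exact Or.inr (hz r)
    · intro i hi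
      have := hpos i hi
      right
      rw [Int.toNat_of_nonneg (by omega)]
      omega
    · intro r
      exact hD.1 (z r) (hz r)
    · intro i hi
      have h1 := hpos i hi
      have h2 := hD.2 (ell (a i) (xx z)) (hne i)
      refine h2.mono ?_
      rw [Int.toNat_of_nonneg (by omega)]
      omega
  · set p : ℤ := (poleOrder v z : ℤ) with hp
    have hpos : ∀ i ∈ I, 0 ≤ v.ord (ell (a i) (xx z)) + p := by
      intro i hi
      exact ((hI i).1 hi).le
    have h := loc_general hPSI hEVB b1 b2 a v D z e R wt I he hR hRI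
      (fun i => (v.ord (ell (a i) (xx z)) + p).toNat) (-p) (δ - p - 1) ?_ ?_ ?_ ?_
    · have e2 : ∑ i ∈ I, (wt i : ℤ) * ((v.ord (ell (a i) (xx z)) + p).toNat : ℤ) =
          ∑ i ∈ I, (wt i : ℤ) * (v.ord (ell (a i) (xx z)) + p) := by
        refine Finset.sum_congr rfl fun i hi => ?_
        rw [Int.toNat_of_nonneg (hpos i hi)]
      rw [e2] at h
      refine h.mono (le_of_eq ?_)
      ring
    · intro s
      refine Fin.cases ?_ (fun r => ?_) s
      · refine (ge_one v).mono ?_
        omega
      · exact Or.inr (ord_le_pole v z r)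
    · intro i hi
      have := hpos i hi
      right
      rw [Int.toNat_of_nonneg (by omega)]
      omega
    · intro r
      by_cases hz : z r = 0
      · rw [hz, map_zero]; exact ge_zero v _
      · refine (hD.2 (z r) hz).mono ?_
        have := ord_le_pole v z r
        omega
    · intro i hi
      have h1 := hpos i hi
      have h2 := hD.2 (ell (a i) (xx z)) (hne i)
      refine h2.mono ?_
      rw [Int.toNat_of_nonneg (by omega)]
      omega

end Pool.Agent.H65.GH
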