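import Pool.Agent.H27.GH.Targets

/-!
# MP_70ba79_ag, board gh_modules: module PSI
-/

set_option autoImplicit false

namespace Pool.Agent.H65.GH

open MvPolynomial SC Pool.Agent.H27.LV Pool.Agent.H27.GH

section BihLemmas

variable {R : Type} [CommRing R] {n : ℕ}

theorem bih_iff {b1 b2 : ℕ} {P : MvPolynomial (Vr n) R} :
    Bih b1 b2 P ↔ ∀ m : Vr n →₀ ℕ,
      ¬ (∑ s, m (Sum.inl s) = b1 ∧ ∑ s, m (Sum.inr s) = b2) → coeff m P = 0 := by
  unfold Bih
  constructor
  · intro h m hm
    by_contra hc
    exact hm (h m (MvPolynomial.mem_support_iff.2 hc))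
  · intro h m hm
    by_contra hc
    exact (MvPolynomial.mem_support_iff.1 hm) (h m hc)

theorem bih_zero {b1 b2 : ℕ} : Bih b1 b2 (0 : MvPolynomial (Vr n) R) := by
  rw [bih_iff]; intro m _; simp

theorem bih_add {b1 b2 : ℕ} {P Q : MvPolynomial (Vr n) R} (hP : Bih b1 b2 P)
    (hQ : Bih b1 b2 Q) : Bih b1 b2 (P + Q) := by
  rw [bih_iff] at *
  intro m hm
  rw [coeff_add, hP m hm, hQ m hm, add_zero]

theorem bih_sum {ι : Type} {b1 b2 : ℕ} (s : Finset ι) (f : ι → MvPolynomial (Vr n) R)
    (h : ∀ i ∈ s, Bih b1 b2 (f i)) : Bih b1 b2 (∑ i ∈ s, f i) := by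
  classical
  induction s using Finset.induction_on with
  | empty => simpa using bih_zero
  | insert i s hi ih =>
    rw [Finset.sum_insert hi]
    exact bih_add (h i (Finset.mem_insert_self i s))
      (ih fun j hj => h j (Finset.mem_insert_of_mem hj))

theorem bih_C_mul {b1 b2 : ℕ} {P : MvPolynomial (Vr n) R} (c : R) (hP : Bih b1 b2 P) :
    Bih b1 b2 (C c * P) := by
  rw [bih_iff] at *
  intro m hm
  rw [coeff_C_mul, hP m hm, mul_zero]

theorem bih_C (c : R) : Bih 0 0 (C c : MvPolynomial (Vr n) R) := by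
  rw [bih_iff]
  intro m hm
  rw [coeff_C]
  rw [if_neg]
  rintro rfl
  exact hm (by simp)

theorem bih_X_inl (s : Fin (n + 1)) : Bih 1 0 (X (Sum.inl s) : MvPolynomial (Vr n) R) := by
  classical
  rw [bih_iff]
  intro m hm
  rw [coeff_X, if_neg]
  rintro rfl
  apply hm
  constructor
  · rw [Finset.sum_eq_single s]
    · simp
    · intro b _ hb
      rw [Finsupp.single_apply, if_neg]
      intro h
      exact hb (Sum.inl.inj h).symm
    · intro h
      exact absurd (Finset.mem_univ s) h
  · simp

theorem bih_X_inr (s : Fin n) : Bih 0 1 (X (Sum.inr s) : MvPolynomial (Vr n) R) := by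
  classical
  rw [bih_iff]
  intro m hm
  rw [coeff_X, if_neg]
  rintro rfl
  apply hm
  constructor
  · simp
  · rw [Finset.sum_eq_single s]
    · simp
    · intro b _ hb
      rw [Finsupp.single_apply, if_neg]
      intro h
      exact hb (Sum.inr.inj h).symm
    · intro h
      exact absurd (Finset.mem_univ s) h

theorem bih_lX (a : Fin (n + 1) → R) : Bih 1 0 (lX a) := by
  unfold lX
  exact bih_sum _ _ fun s _ => bih_C_mul _ (bih_X_inl s)

theorem bih_lY (a : Fin (n + 1) → R) : Bih 0 1 (lY a) := by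
  unfold lY
  exact bih_sum _ _ fun s _ => bih_C_mul _ (bih_X_inr s)

theorem cbih_add {σ : Type} {b1 b2 : ℕ} {P Q : MvPolynomial σ (MvPolynomial (Vr n) R)}
    (hP : CBih b1 b2 P) (hQ : CBih b1 b2 Q) : CBih b1 b2 (P + Q) := by
  intro κ
  rw [coeff_add]
  exact bih_add (hP κ) (hQ κ)

theorem cbih_sum {σ ι : Type} {b1 b2 : ℕ} (s : Finset ι)
    (f : ι → MvPolynomial σ (MvPolynomial (Vr n) R))
    (h : ∀ i ∈ s, CBih b1 b2 (f i)) : CBih b1 b2 (∑ i ∈ s, f i) := by
  intro κ
  rw [coeff_sum]
  exact bih_sum _ _ fun i hi => h i hi κ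

theorem cbih_C {σ : Type} {b1 b2 : ℕ} {P : MvPolynomial (Vr n) R} (hP : Bih b1 b2 P) :
    CBih b1 b2 (C P : MvPolynomial σ (MvPolynomial (Vr n) R)) := by
  classical
  intro κ
  rw [coeff_C]
  split_ifs
  · exact hP
  · exact bih_zero

theorem cbih_mul {σ : Type} {b1 b2 : ℕ} (i : σ) {P : MvPolynomial (Vr n) R} (e : R)
    (hP : Bih b1 b2 P) :
    CBih b1 b2 (((X i - 1) * C P * C (C e)) : MvPolynomial σ (MvPolynomial (Vr n) R)) := by
  classical
  intro κ
  rw [show ((X i - 1) * C P * C (C e) : MvPolynomial σ (MvPolynomial (Vr n) R)) =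
    C (P * C e) * (X i - 1) by rw [C_mul]; ring, coeff_C_mul]
  have : P * C e * coeff κ (X i - 1 : MvPolynomial σ (MvPolynomial (Vr n) R)) =
      C (((if Finsupp.single i 1 = κ then 1 else 0) - (if 0 = κ then 1 else 0)) * e) * P := by
    rw [coeff_sub, coeff_X, coeff_one]
    split_ifs <;> simp <;> ring
  rw [this]
  exact bih_C_mul _ hP

end BihLemmas

section Psi

variable {k : Type} [Field k] {n q : ℕ}

/-- the moved point -/
noncomputable def pxs (a : Fin q → Fin (n + 1) → k) (I : Finset (Fin q)) (e : Fin q → Fin n → k) :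
    Fin (n + 1) → MvPolynomial (Fin q) (MvPolynomial (Vr n) k) :=
  Fin.cons (C (X (Sum.inl 0))) (fun r => C (X (Sum.inl r.succ)) +
    ∑ i ∈ I, (X i - 1) * C (lX (a i)) * C (C (e i r)))

/-- the moved tangent vector -/
noncomputable def pys (a : Fin q → Fin (n + 1) → k) (I : Finset (Fin q)) (e : Fin q → Fin n → k) :
    Fin n → MvPolynomial (Fin q) (MvPolynomial (Vr n) k) :=
  fun r => C (X (Sum.inr r)) + ∑ i ∈ I, (X i - 1) * C (lY (a i)) * C (C (e i r))

/-- the substitution -/
noncomputable def psi (a : Fin q → Fin (n + 1) → k) (I : Finset (Fin q)) (e : Fin q → Fin n → k) :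
    MvPolynomial (Vr n) k →+* MvPolynomial (Fin q) (MvPolynomial (Vr n) k) :=
  eval₂Hom (C.comp C) (Sum.elim (pxs a I e) (pys a I e))

theorem psi_C (a : Fin q → Fin (n + 1) → k) (I : Finset (Fin q)) (e : Fin q → Fin n → k) (c : k) :
    psi a I e (C c) = C (C c) := by
  simp [psi]

theorem psi_inl (a : Fin q → Fin (n + 1) → k) (I : Finset (Fin q)) (e : Fin q → Fin n → k)
    (s : Fin (n + 1)) : psi a I e (X (Sum.inl s)) = pxs a I e s := by
  simp [psi]

theorem psi_inr (a : Fin q → Fin (n + 1) → k) (I : Finset (Fin q)) (e : Fin q → Fin n → k)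
    (s : Fin n) : psi a I e (X (Sum.inr s)) = pys a I e s := by
  simp [psi]

theorem lX_map {S : Type} [CommRing S] (f : MvPolynomial (Vr n) k →+* S)
    (a : Fin (n + 1) → k) :
    f (lX a) = f (C (a 0)) * f (X (Sum.inl 0)) +
      ∑ s : Fin n, f (C (a s.succ)) * f (X (Sum.inl s.succ)) := by
  unfold lX
  rw [Fin.sum_univ_succ, map_add, map_mul, map_sum]
  simp only [map_mul]

theorem lY_map {S : Type} [CommRing S] (f : MvPolynomial (Vr n) k →+* S)
    (a : Fin (n + 1) → k) :
    f (lY a) = ∑ s : Fin n, f (C (a s.succ)) * f (X (Sum.inr s)) := by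
  unfold lY
  rw [map_sum]
  simp only [map_mul]

/-- the key computation with dual vectors -/
theorem dual_sum {S : Type} [CommRing S] (f : k →+* S) {a : Fin q → Fin (n + 1) → k}
    {I : Finset (Fin q)} {e : Fin q → Fin n → k} (he : Dual a I e) {j : Fin q} (hj : j ∈ I)
    (g : Fin q → S) :
    ∑ r : Fin n, f (a j r.succ) * ∑ i ∈ I, g i * f (e i r) = g j := by
  have h1 : ∑ r : Fin n, f (a j r.succ) * ∑ i ∈ I, g i * f (e i r) =
      ∑ i ∈ I, g i * f (∑ r : Fin n, a j r.succ * e i r) := by
    simp only [Finset.mul_sum, map_sum, map_mul]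
    rw [Finset.sum_comm]
    refine Finset.sum_congr rfl fun i _ => Finset.sum_congr rfl fun r _ => ?_
    ring
  rw [h1]
  rw [Finset.sum_eq_single j]
  · rw [he j hj j hj]; simp
  · intro i hi hij
    rw [he i hi j hj, if_neg hij]; simp
  · intro h; exact absurd hj h

theorem psi_lX {a : Fin q → Fin (n + 1) → k} {I : Finset (Fin q)} {e : Fin q → Fin n → k}
    (he : Dual a I e) {j : Fin q} (hj : j ∈ I) :
    psi a I e (lX (a j)) = X j * C (lX (a j)) := by
  have h := dual_sum (C.comp C : k →+* MvPolynomial (Fin q) (MvPolynomial (Vr n) k)) he hj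
    (fun i => (X i - 1) * C (lX (a i)))
  simp only [RingHom.comp_apply] at h
  have h2 : psi a I e (lX (a j)) = C (lX (a j)) + (X j - 1) * C (lX (a j)) := by
    rw [← h, lX_map (psi a I e) (a j), lX_map C (a j)]
    simp only [psi_C, psi_inl, pxs, Fin.cons_zero,
      Fin.cons_succ, mul_add, Finset.sum_add_distrib]
    rw [add_assoc]
  rw [h2]; ring

theorem psi_lY {a : Fin q → Fin (n + 1) → k} {I : Finset (Fin q)} {e : Fin q → Fin n → k}
    (he : Dual a I e) {j : Fin q} (hj : j ∈ I) :
    psi a I e (lY (a j)) = X j * C (lY (a j)) := by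
  have h := dual_sum (C.comp C : k →+* MvPolynomial (Fin q) (MvPolynomial (Vr n) k)) he hj
    (fun i => (X i - 1) * C (lY (a i)))
  simp only [RingHom.comp_apply] at h
  have h2 : psi a I e (lY (a j)) = C (lY (a j)) + (X j - 1) * C (lY (a j)) := by
    rw [← h, lY_map (psi a I e) (a j), lY_map C (a j)]
    simp only [psi_C, psi_inr, pys, mul_add, Finset.sum_add_distrib]
  rw [h2]; ring

theorem psi_dvd {a : Fin q → Fin (n + 1) → k} {I : Finset (Fin q)} {e : Fin q → Fin n → k}
    (he : Dual a I e) {j : Fin q} (hj : j ∈ I) (w : ℕ) (R : MvPolynomial (Vr n) k)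
    (hR : R ∈ LI (a j) ^ w) : X j ^ w ∣ psi a I e R := by
  have h1 : Ideal.map (psi a I e) (LI (a j)) ≤ Ideal.span {X j} := by
    unfold LI
    rw [Ideal.map_span, Ideal.span_le]
    rintro _ ⟨f, hf, rfl⟩
    simp only [Set.mem_insert_iff, Set.mem_singleton_iff] at hf
    rcases hf with rfl | rfl
    · rw [psi_lX he hj]
      exact Ideal.mul_mem_right _ _ (Ideal.subset_span rfl)
    · rw [psi_lY he hj]
      exact Ideal.mul_mem_right _ _ (Ideal.subset_span rfl)
  have h2 : psi a I e R ∈ (Ideal.span {X j} : Ideal (MvPolynomial (Fin q)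
      (MvPolynomial (Vr n) k))) ^ w := by
    have := Ideal.mem_map_of_mem (psi a I e) hR
    rw [Ideal.map_pow] at this
    exact Ideal.pow_right_mono h1 w this
  rw [Ideal.span_singleton_pow] at h2
  exact Ideal.mem_span_singleton.1 h2

theorem coeff_of_dvd {S σ : Type} [CommRing S] (j : σ) (w : ℕ) (Q : MvPolynomial σ S)
    (h : X j ^ w ∣ Q) (γ : σ →₀ ℕ) (hγ : coeff γ Q ≠ 0) : w ≤ γ j := by
  classical
  obtain ⟨Q', rfl⟩ := h
  by_contra hc
  apply hγ
  rw [mul_comm, X_pow_eq_monomial, coeff_mul_monomial', if_neg]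
  intro hle
  have := hle j
  simp at this
  omega

end Psi

theorem pf_PSI (hBIC : T_BIC) : T_PSI := by
  classical
  intro k K _ _ _ n q b1 b2 a I e he R wt hR hRI x y s hs
  have hcb : CBih b1 b2 (psi a I e R) := by
    refine hBIC k k n (Fin q) (psi a I e) ?_ ?_ ?_ b1 b2 R hR
    · intro r
      rw [psi_C]
      exact cbih_C (bih_C r)
    · intro s
      rw [psi_inl]
      refine Fin.cases ?_ (fun r => ?_) s
      · exact cbih_C (bih_X_inl 0)
      · simp only [pxs, Fin.cons_succ]
        exact cbih_add (cbih_C (bih_X_inl _)) (cbih_sum _ _ fun i _ => cbih_mul i _ (bih_lX _))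
    · intro r
      rw [psi_inr]
      exact cbih_add (cbih_C (bih_X_inr _)) (cbih_sum _ _ fun i _ => cbih_mul i _ (bih_lY _))
  refine ⟨(psi a I e R).support, fun γ => coeff γ (psi a I e R), ?_, ?_⟩
  · intro γ hγ
    exact ⟨hcb γ, fun i hi => coeff_of_dvd i (wt i) _ (psi_dvd he hi (wt i) R (hRI i hi)) γ
      (MvPolynomial.mem_support_iff.1 hγ)⟩
  · set ζ : Fin (n + 1) → K := Fin.cons (x 0) fun r : Fin n => x r.succ +
          ∑ i ∈ I, ((s i)⁻¹ - 1) * ell (a i) x * algebraMap k K (e i r) with hζ
    set θ : Fin n → K := fun r : Fin n => y r +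
      ∑ i ∈ I, ((s i)⁻¹ - 1) * ellY (a i) y * algebraMap k K (e i r) with hθ
    set s0 : Fin q → K := fun i => if i ∈ I then s i else 1 with hs0
    set ev : MvPolynomial (Fin q) (MvPolynomial (Vr n) k) →+* K :=
      eval₂Hom (aeval (Sum.elim ζ θ)).toRingHom s0 with hev
    have evC : ∀ P : MvPolynomial (Vr n) k, ev (C P) = aeval (Sum.elim ζ θ) P := by
      intro P; simp [hev]
    have evX : ∀ i ∈ I, ev (X i) = s i := by
      intro i hi; simp [hev, hs0, hi]
    have hl : ∀ j ∈ I, aeval (Sum.elim ζ θ) (lX (a j)) = (s j)⁻¹ * ell (a j) x := by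
      intro j hj
      have h := dual_sum (algebraMap k K) he hj (fun i => ((s i)⁻¹ - 1) * ell (a i) x)
      have h2 : aeval (Sum.elim ζ θ) (lX (a j)) =
          ell (a j) x + ((s j)⁻¹ - 1) * ell (a j) x := by
        have e3 : ell (a j) x = algebraMap k K (a j 0) * x 0 +
            ∑ r : Fin n, algebraMap k K (a j r.succ) * x r.succ := by
          unfold ell
          rw [Fin.sum_univ_succ]
        rw [← h]
        have e4 := lX_map ((aeval (Sum.elim ζ θ) : MvPolynomial (Vr n) k →ₐ[k] K) :
          MvPolynomial (Vr n) k →+* K) (a j)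
        simp only [RingHom.coe_coe, aeval_X, Sum.elim_inl, aeval_C] at e4
        rw [e4, e3]
        simp only [hζ, Fin.cons_zero,
          Fin.cons_succ, mul_add, Finset.sum_add_distrib]
        rw [add_assoc]
      rw [h2]; ring
    have hl' : ∀ j ∈ I, aeval (Sum.elim ζ θ) (lY (a j)) = (s j)⁻¹ * ellY (a j) y := by
      intro j hj
      have h := dual_sum (algebraMap k K) he hj (fun i => ((s i)⁻¹ - 1) * ellY (a i) y)
      have h2 : aeval (Sum.elim ζ θ) (lY (a j)) =
          ellY (a j) y + ((s j)⁻¹ - 1) * ellY (a j) y := by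
        have e3 : ellY (a j) y = ∑ r : Fin n, algebraMap k K (a j r.succ) * y r := rfl
        rw [← h]
        have e4 := lY_map ((aeval (Sum.elim ζ θ) : MvPolynomial (Vr n) k →ₐ[k] K) :
          MvPolynomial (Vr n) k →+* K) (a j)
        simp only [RingHom.coe_coe, aeval_X, Sum.elim_inr, aeval_C] at e4
        rw [e4, e3]
        simp only [hθ, mul_add, Finset.sum_add_distrib]
      rw [h2]; ring
    have key : ev.comp (psi a I e) = (aeval (Sum.elim x y)).toRingHom := by
      apply MvPolynomial.ringHom_ext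
      · intro c
        simp only [RingHom.comp_apply, psi_C, evC]
        simp
      · rintro (r | r)
        · simp only [RingHom.comp_apply, psi_inl]
          refine Fin.cases ?_ (fun r => ?_) r
          · simp only [pxs, Fin.cons_zero, evC]
            simp [hζ]
          · simp only [pxs, Fin.cons_succ, map_add, map_sum, map_mul, map_sub, evC, map_one]
            have : ∀ i ∈ I, (ev (X i) - 1) * aeval (Sum.elim ζ θ) (lX (a i)) *
                aeval (Sum.elim ζ θ) (C (e i r)) =
                (s i - 1) * ((s i)⁻¹ * ell (a i) x) * algebraMap k K (e i r) := by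
              intro i hi
              rw [evX i hi, hl i hi]
              simp
            rw [Finset.sum_congr rfl this]
            simp only [aeval_X, Sum.elim_inl, hζ, Fin.cons_succ, AlgHom.toRingHom_eq_coe,
              RingHom.coe_coe]
            rw [add_assoc, ← Finset.sum_add_distrib, Finset.sum_eq_zero, add_zero]
            intro i hi
            have := hs i hi
            field_simp
            ring
        · simp only [RingHom.comp_apply, psi_inr]
          simp only [pys, map_add, map_sum, map_mul, map_sub, evC, map_one]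
          have : ∀ i ∈ I, (ev (X i) - 1) * aeval (Sum.elim ζ θ) (lY (a i)) *
              aeval (Sum.elim ζ θ) (C (e i r)) =
              (s i - 1) * ((s i)⁻¹ * ellY (a i) y) * algebraMap k K (e i r) := by
            intro i hi
            rw [evX i hi, hl' i hi]
            simp
          rw [Finset.sum_congr rfl this]
          simp only [aeval_X, Sum.elim_inr, hθ, AlgHom.toRingHom_eq_coe,
            RingHom.coe_coe]
          rw [add_assoc, ← Finset.sum_add_distrib, Finset.sum_eq_zero, add_zero]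
          intro i hi
          have := hs i hi
          field_simp
          ring
    have e1 : aeval (Sum.elim x y) R = ev (psi a I e R) := by
      have := congrArg (fun f => f R) key
      simpa using this.symm
    rw [e1, hev, coe_eval₂Hom, eval₂_eq']
    refine Finset.sum_congr rfl fun γ _ => ?_
    rw [mul_comm]
    congr 1
    rw [← Finset.prod_subset (Finset.subset_univ I)]
    · refine Finset.prod_congr rfl fun i hi => ?_
      simp [hs0, hi]
    · intro i _ hi
      simp [hs0, hi]

end Pool.Agent.H65.GH
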